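import Mathlib
import Pool.Agent.R591.CS.Main

set_option autoImplicit false

/-!
# MP_3223b9_lc: cardinals strictly between productive cellularity and density

Let `κ` be a strong limit cardinal of countable cofinality with `2 ^ κ = κ⁺`, and let `P` be the
poset of countable partial functions from a set of size `κ` to `{0, 1}`, ordered by extension. Then
`pc(P) ≤ 2 ^ ℵ₀ < κ < d(P)`, and `κ` is not in the cellular spectrum of `P`.
-/

namespace Pool.Agent.Results.MP_3223b9_lc.CountableFunctions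

open Pool.Agent.R591.CS Cardinal Ordinal

/-- (1) If `κ` is an uncountable strong limit cardinal of countable cofinality and `2 ^ κ = κ⁺`,
then the poset `P` of countable partial functions from `ℕ × κ` to `Bool` satisfies
`pc(P) ≤ 𝔠 < κ < d(P)`, and some poset `Q` has `c(Q) ≤ κ` and `c(P × Q) > κ`.
(2) In particular, if `2 ^ ℶ_ω = (ℶ_ω)⁺` (for instance, if the generalized continuum hypothesis
holds), then there are posets `P`, `Q` and a cardinal `κ` with `pc(P) < κ < d(P)`, `c(Q) ≤ κ` and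
`c(P × Q) > κ`. -/
theorem result :
    (∀ κ : Cardinal.{0}, κ.IsStrongLimit → ℵ₀ < κ → κ.ord.cof = ℵ₀ → 2 ^ κ = Order.succ κ →
      pc (Fn (ℕ × κ.ord.ToType)) ≤ 𝔠 ∧ 𝔠 < κ ∧ κ < dens (Fn (ℕ × κ.ord.ToType)) ∧
        ∃ (Q : Type) (_ : PartialOrder Q),
          cell Q ≤ κ ∧ κ < cell (Fn (ℕ × κ.ord.ToType) × Q)) ∧
    (2 ^ ℶ_ ω = Order.succ (ℶ_ ω : Cardinal.{0}) →
      ∃ (P Q : Type) (_ : PartialOrder P) (_ : PartialOrder Q) (κ : Cardinal.{0}),
        pc P < κ ∧ κ < dens P ∧ cell Q ≤ κ ∧ κ < cell (P × Q)) := by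
  have h : ∀ κ : Cardinal.{0}, κ.IsStrongLimit → ℵ₀ < κ → κ.ord.cof = ℵ₀ → 2 ^ κ = Order.succ κ →
      pc (Fn (ℕ × κ.ord.ToType)) ≤ 𝔠 ∧ 𝔠 < κ ∧ κ < dens (Fn (ℕ × κ.ord.ToType)) ∧
        ∃ (Q : Type) (_ : PartialOrder Q),
          cell Q ≤ κ ∧ κ < cell (Fn (ℕ × κ.ord.ToType) × Q) := by
    intro κ hs hω hc h2
    obtain ⟨h3, h4, h5, -⟩ := fn_counterexample hs hω hc h2
    exact ⟨h3, h4, h5, main hs hc h2⟩
  refine ⟨h, fun h2 => ?_⟩
  obtain ⟨hs, hω, hc⟩ := beth_omega_facts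
  obtain ⟨h3, h4, h5, Q, hQ, h6, h7⟩ := h (ℶ_ ω) hs hω hc h2
  exact ⟨_, Q, inferInstance, hQ, ℶ_ ω, h3.trans_lt h4, h5, h6, h7⟩

end Pool.Agent.Results.MP_3223b9_lc.CountableFunctions
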